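import Mathlib
set_option autoImplicit false

namespace Pool.Agent.Results.MP_582e6d_pr.FatherChoice

/-- The three possible pairings of father, mother and son. -/
inductive Pairing
  | FM
  | FS
  | MS

/-- The probability that the father wins the tournament when the next game is the given pairing
and the father, the mother and the son still need `f`, `m`, `s` game wins; `a`, `b`, `c` are the
probabilities that F beats M, F beats S, M beats S, and the winner of a game next plays the player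
who sat out. -/
noncomputable def win (a b c : ℝ) : Pairing → ℕ → ℕ → ℕ → ℝ
  | _, 0, _, _ => 1
  | _, _ + 1, 0, _ => 0
  | _, _ + 1, _ + 1, 0 => 0
  | .FM, f + 1, m + 1, s + 1 =>
      a * win a b c .FS f (m + 1) (s + 1) + (1 - a) * win a b c .MS (f + 1) m (s + 1)
  | .FS, f + 1, m + 1, s + 1 =>
      b * win a b c .FM f (m + 1) (s + 1) + (1 - b) * win a b c .MS (f + 1) (m + 1) s
  | .MS, f + 1, m + 1, s + 1 =>
      c * win a b c .FM (f + 1) m (s + 1) + (1 - c) * win a b c .FS (f + 1) (m + 1) s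
termination_by _ f m s => f + m + s

section basic
variable (a b c : ℝ)

lemma win_zero (X : Pairing) (m s : ℕ) : win a b c X 0 m s = 1 := by
  cases X <;> simp [win]

lemma win_m0 (X : Pairing) (f s : ℕ) : win a b c X (f + 1) 0 s = 0 := by
  cases X <;> simp [win]

lemma win_s0 (X : Pairing) (f m : ℕ) : win a b c X (f + 1) m 0 = 0 := by
  cases m <;> cases X <;> simp [win]

lemma win_FM (f m s : ℕ) : win a b c .FM (f + 1) (m + 1) (s + 1) =
    a * win a b c .FS f (m + 1) (s + 1) + (1 - a) * win a b c .MS (f + 1) m (s + 1) := by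
  rw [win]

lemma win_FS (f m s : ℕ) : win a b c .FS (f + 1) (m + 1) (s + 1) =
    b * win a b c .FM f (m + 1) (s + 1) + (1 - b) * win a b c .MS (f + 1) (m + 1) s := by
  rw [win]

lemma win_MS (f m s : ℕ) : win a b c .MS (f + 1) (m + 1) (s + 1) =
    c * win a b c .FM (f + 1) m (s + 1) + (1 - c) * win a b c .FS (f + 1) (m + 1) s := by
  rw [win]

variable {a b c}
variable (ha0 : 0 ≤ a) (ha1 : a ≤ 1) (hb0 : 0 ≤ b) (hb1 : b ≤ 1) (hc0 : 0 ≤ c) (hc1 : c ≤ 1)
include ha0 ha1 hb0 hb1 hc0 hc1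

lemma win_bounds : ∀ (n f m s : ℕ), f + m + s = n → ∀ X : Pairing,
    0 ≤ win a b c X f m s ∧ win a b c X f m s ≤ 1 := by
  intro n
  induction n using Nat.strong_induction_on with
  | _ n ih =>
    intro f m s hn X
    rcases f with _ | f
    · rw [win_zero]; exact ⟨zero_le_one, le_rfl⟩
    rcases m with _ | m
    · rw [win_m0]; exact ⟨le_rfl, zero_le_one⟩
    rcases s with _ | s
    · rw [win_s0]; exact ⟨le_rfl, zero_le_one⟩
    have key : ∀ p u v : ℝ, 0 ≤ p → p ≤ 1 → (0 ≤ u ∧ u ≤ 1) → (0 ≤ v ∧ v ≤ 1) →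
        0 ≤ p * u + (1 - p) * v ∧ p * u + (1 - p) * v ≤ 1 := by
      intro p u v h0 h1 hu hv
      constructor
      · have := mul_nonneg h0 hu.1
        have := mul_nonneg (sub_nonneg.2 h1) hv.1
        linarith
      · have := mul_le_mul_of_nonneg_left hu.2 h0
        have := mul_le_mul_of_nonneg_left hv.2 (sub_nonneg.2 h1)
        linarith
    cases X
    · rw [win_FM]
      exact key a _ _ ha0 ha1 (ih _ (by omega) f (m + 1) (s + 1) rfl _)
        (ih _ (by omega) (f + 1) m (s + 1) rfl _)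
    · rw [win_FS]
      exact key b _ _ hb0 hb1 (ih _ (by omega) f (m + 1) (s + 1) rfl _)
        (ih _ (by omega) (f + 1) (m + 1) s rfl _)
    · rw [win_MS]
      exact key c _ _ hc0 hc1 (ih _ (by omega) (f + 1) m (s + 1) rfl _)
        (ih _ (by omega) (f + 1) (m + 1) s rfl _)

lemma win_mono : ∀ (n f m s : ℕ), f + m + s = n → ∀ X : Pairing,
    win a b c X f m s ≤ win a b c X f (m + 1) s ∧ win a b c X f m s ≤ win a b c X f m (s + 1) := by
  intro n
  induction n using Nat.strong_induction_on with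
  | _ n ih =>
    intro f m s hn X
    rcases f with _ | f
    · rw [win_zero, win_zero, win_zero]; exact ⟨le_rfl, le_rfl⟩
    have hnn := fun X f m s => (win_bounds ha0 ha1 hb0 hb1 hc0 hc1 _ f m s rfl X).1
    rcases m with _ | m
    · rw [win_m0, win_m0]; exact ⟨hnn _ _ _ _, le_rfl⟩
    rcases s with _ | s
    · rw [win_s0, win_s0]; exact ⟨le_rfl, hnn _ _ _ _⟩
    have key : ∀ p u v u' v' : ℝ, 0 ≤ p → p ≤ 1 → u ≤ u' → v ≤ v' →
        p * u + (1 - p) * v ≤ p * u' + (1 - p) * v' := by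
      intro p u v u' v' h0 h1 hu hv
      have := mul_le_mul_of_nonneg_left hu h0
      have := mul_le_mul_of_nonneg_left hv (sub_nonneg.2 h1)
      linarith
    cases X
    · rw [win_FM, win_FM, win_FM]
      exact ⟨key a _ _ _ _ ha0 ha1 (ih _ (by omega) f (m + 1) (s + 1) rfl _).1
          (ih _ (by omega) (f + 1) m (s + 1) rfl _).1,
        key a _ _ _ _ ha0 ha1 (ih _ (by omega) f (m + 1) (s + 1) rfl _).2
          (ih _ (by omega) (f + 1) m (s + 1) rfl _).2⟩
    · rw [win_FS, win_FS, win_FS]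
      exact ⟨key b _ _ _ _ hb0 hb1 (ih _ (by omega) f (m + 1) (s + 1) rfl _).1
          (ih _ (by omega) (f + 1) (m + 1) s rfl _).1,
        key b _ _ _ _ hb0 hb1 (ih _ (by omega) f (m + 1) (s + 1) rfl _).2
          (ih _ (by omega) (f + 1) (m + 1) s rfl _).2⟩
    · rw [win_MS, win_MS, win_MS]
      exact ⟨key c _ _ _ _ hc0 hc1 (ih _ (by omega) (f + 1) m (s + 1) rfl _).1
          (ih _ (by omega) (f + 1) (m + 1) s rfl _).1,
        key c _ _ _ _ hc0 hc1 (ih _ (by omega) (f + 1) m (s + 1) rfl _).2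
          (ih _ (by omega) (f + 1) (m + 1) s rfl _).2⟩

end basic

/-! ### the arrays of coefficients -/

/-- The number arrays `g k i l`, the coefficients of `1 / (1 - X - Y) ^ k`. -/
def g : ℕ → ℕ → ℕ → ℕ
  | 0, 0, 0 => 1
  | 0, 0, _ + 1 => 0
  | 0, _ + 1, _ => 0
  | k + 1, 0, 0 => g k 0 0
  | k + 1, i + 1, 0 => g k (i + 1) 0 + g (k + 1) i 0
  | k + 1, 0, l + 1 => g k 0 (l + 1) + g (k + 1) 0 l
  | k + 1, i + 1, l + 1 => g k (i + 1) (l + 1) + g (k + 1) i (l + 1) + g (k + 1) (i + 1) l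
termination_by k i l => (k, i + l)

lemma g_symm : ∀ k n i l : ℕ, i + l = n → g k i l = g k l i := by
  intro k
  induction k with
  | zero =>
    intro n i l _
    rcases i with _ | i <;> rcases l with _ | l <;> simp [g]
  | succ k ihk =>
    intro n
    induction n using Nat.strong_induction_on with
    | _ n ihn =>
      intro i l hn
      rcases i with _ | i <;> rcases l with _ | l
      · rfl
      · rw [g, g, ihk _ 0 (l + 1) rfl, ihn (0 + l) (by omega) 0 l rfl]
      · rw [g, g, ihk _ (i + 1) 0 rfl, ihn (i + 0) (by omega) i 0 rfl]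
      · rw [g, g, ihk _ (i + 1) (l + 1) rfl, ihn (i + (l + 1)) (by omega) i (l + 1) rfl,
          ihn (i + 1 + l) (by omega) (i + 1) l rfl]
        ring

/-- Shifted value. -/
def pre (h : ℕ → ℝ) : ℕ → ℝ
  | 0 => 0
  | i + 1 => h i

/-- The coefficients of `1 / (1 - α X ^ 2 - β Y ^ 2) ^ k`. -/
noncomputable def G (α β : ℝ) (k i l : ℕ) : ℝ := (g k i l : ℝ) * α ^ i * β ^ l

lemma G_rec (α β : ℝ) (k i l : ℕ) : G α β (k + 1) i l = G α β k i l +
    α * pre (fun i' => G α β (k + 1) i' l) i + β * pre (fun l' => G α β (k + 1) i l') l := by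
  unfold G
  rcases i with _ | i <;> rcases l with _ | l
  · rw [g]; simp [pre]
  · rw [g]; simp only [pre]; push_cast; ring
  · rw [g]; simp only [pre]; push_cast; ring
  · rw [g]; simp only [pre]; push_cast; ring

/-- Convolution with `G`. -/
noncomputable def conv (α β : ℝ) (B k : ℕ) (φ : ℕ → ℕ → ℝ) (m s : ℕ) : ℝ :=
  ∑ i ∈ Finset.range B, ∑ l ∈ Finset.range B, G α β k i l * φ (m - 2 * i) (s - 2 * l)

/-- Vanishing on the axes. -/
def Supp (φ : ℕ → ℕ → ℝ) : Prop := (∀ s, φ 0 s = 0) ∧ (∀ m, φ m 0 = 0)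

lemma shift_sum (h ψ : ℕ → ℝ) (hψ : ψ 0 = 0) (m B : ℕ) (hB : m ≤ B) :
    ∑ i ∈ Finset.range B, h i * ψ (m - 2 * i - 2) =
      ∑ i ∈ Finset.range B, pre h i * ψ (m - 2 * i) := by
  have h1 : ∑ i ∈ Finset.range (B + 1), pre h i * ψ (m - 2 * i) =
      ∑ i ∈ Finset.range B, h i * ψ (m - 2 * i - 2) := by
    rw [Finset.sum_range_succ']
    simp only [pre, zero_mul, add_zero]
    refine Finset.sum_congr rfl fun i _ => ?_
    rw [show m - 2 * (i + 1) = m - 2 * i - 2 by omega]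
  rw [← h1, Finset.sum_range_succ]
  have h2 : m - 2 * B = 0 := by omega
  rw [h2, hψ, mul_zero, add_zero]

lemma conv_step (α β : ℝ) (B k : ℕ) (φ ψ : ℕ → ℕ → ℝ) (hψ : Supp ψ)
    (h : ∀ m s, ψ m s = α * ψ (m - 2) s + β * ψ m (s - 2) + φ m s) (m s : ℕ) (hm : m ≤ B)
    (hs : s ≤ B) : conv α β B (k + 1) φ m s = conv α β B k ψ m s := by
  unfold conv
  have hφ : ∀ m s, φ m s = ψ m s - α * ψ (m - 2) s - β * ψ m (s - 2) := by
    intro m s; rw [h m s]; ring
  have e1 : ∑ i ∈ Finset.range B, ∑ l ∈ Finset.range B,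
      G α β (k + 1) i l * ψ (m - 2 * i - 2) (s - 2 * l) =
      ∑ i ∈ Finset.range B, ∑ l ∈ Finset.range B,
      pre (fun i' => G α β (k + 1) i' l) i * ψ (m - 2 * i) (s - 2 * l) := by
    rw [Finset.sum_comm]
    conv_rhs => rw [Finset.sum_comm]
    refine Finset.sum_congr rfl fun l _ => ?_
    exact shift_sum (fun i' => G α β (k + 1) i' l) (fun x => ψ x (s - 2 * l)) (hψ.1 _) m B hm
  have e2 : ∑ i ∈ Finset.range B, ∑ l ∈ Finset.range B,
      G α β (k + 1) i l * ψ (m - 2 * i) (s - 2 * l - 2) =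
      ∑ i ∈ Finset.range B, ∑ l ∈ Finset.range B,
      pre (fun l' => G α β (k + 1) i l') l * ψ (m - 2 * i) (s - 2 * l) := by
    refine Finset.sum_congr rfl fun i _ => ?_
    exact shift_sum (fun l' => G α β (k + 1) i l') (fun x => ψ (m - 2 * i) x) (hψ.2 _) s B hs
  calc ∑ i ∈ Finset.range B, ∑ l ∈ Finset.range B,
        G α β (k + 1) i l * φ (m - 2 * i) (s - 2 * l)
      = ∑ i ∈ Finset.range B, ∑ l ∈ Finset.range B,
          (G α β (k + 1) i l * ψ (m - 2 * i) (s - 2 * l)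
            - α * (G α β (k + 1) i l * ψ (m - 2 * i - 2) (s - 2 * l))
            - β * (G α β (k + 1) i l * ψ (m - 2 * i) (s - 2 * l - 2))) := by
        refine Finset.sum_congr rfl fun i _ => Finset.sum_congr rfl fun l _ => ?_
        rw [hφ]; ring
    _ = ∑ i ∈ Finset.range B, ∑ l ∈ Finset.range B,
          (G α β (k + 1) i l * ψ (m - 2 * i) (s - 2 * l)
            - α * (pre (fun i' => G α β (k + 1) i' l) i * ψ (m - 2 * i) (s - 2 * l))
            - β * (pre (fun l' => G α β (k + 1) i l') l * ψ (m - 2 * i) (s - 2 * l))) := by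
        simp only [Finset.sum_sub_distrib, ← Finset.mul_sum]
        rw [e1, e2]
    _ = _ := by
        refine Finset.sum_congr rfl fun i _ => Finset.sum_congr rfl fun l _ => ?_
        rw [G_rec]; ring

lemma conv_zero (α β : ℝ) (B : ℕ) (φ : ℕ → ℕ → ℝ) (m s : ℕ) (hB : 0 < B) :
    conv α β B 0 φ m s = φ m s := by
  unfold conv
  rw [Finset.sum_eq_single 0]
  · rw [Finset.sum_eq_single 0]
    · simp [G, g]
    · intro l _ hl
      obtain ⟨l', rfl⟩ := Nat.exists_eq_succ_of_ne_zero hl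
      simp [G, g]
    · intro h; exact absurd (Finset.mem_range.2 hB) h
  · intro i _ hi
    obtain ⟨i', rfl⟩ := Nat.exists_eq_succ_of_ne_zero hi
    refine Finset.sum_eq_zero fun l _ => ?_
    simp [G, g]
  · intro h; exact absurd (Finset.mem_range.2 hB) h

/-! ### the initial function -/

/-- The indicator of the open quadrant. -/
noncomputable def u (m s : ℕ) : ℝ := if 1 ≤ m ∧ 1 ≤ s then 1 else 0

/-- The initial function. -/
noncomputable def Pu (A B' c : ℝ) (m s : ℕ) : ℝ :=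
  (B' - A) * u m s + A * c * u (m - 2) s - B' * (1 - c) * u m (s - 2) +
    (A * (1 - c) - B' * c) * u (m - 1) (s - 1)

lemma u_succ (m s : ℕ) : u (m + 1) (s + 1) = 1 := by simp [u]
lemma u_zl (s : ℕ) : u 0 s = 0 := by simp [u]
lemma u_zr (m : ℕ) : u m 0 = 0 := by simp [u]

section Pu
variable (A B' c : ℝ)

lemma Pu_zr (m : ℕ) : Pu A B' c m 0 = 0 := by
  simp [Pu, u]
lemma Pu_zl (s : ℕ) : Pu A B' c 0 s = 0 := by
  simp [Pu, u]
lemma Pu_11 : Pu A B' c 1 1 = B' - A := by
  simp [Pu, u]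
lemma Pu_p1 (p : ℕ) : Pu A B' c (p + 3) 1 = B' - A * (1 - c) := by
  have h : Pu A B' c (p + 3) 1 = (B' - A) * u (p + 2 + 1) (0 + 1) + A * c * u (p + 1) (0 + 1)
    - B' * (1 - c) * u (p + 3) 0 + (A * (1 - c) - B' * c) * u (p + 2) 0 := rfl
  rw [h, u_succ, u_succ, u_zr, u_zr]; ring
lemma Pu_1p (p : ℕ) : Pu A B' c 1 (p + 3) = B' * c - A := by
  have h : Pu A B' c 1 (p + 3) = (B' - A) * u (0 + 1) (p + 2 + 1) + A * c * u 0 (p + 3)
    - B' * (1 - c) * u (0 + 1) (p + 1) + (A * (1 - c) - B' * c) * u 0 (p + 2) := rfl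
  rw [h, u_succ, u_succ, u_zl, u_zl]; ring
lemma Pu_22 : Pu A B' c 2 2 = B' * (1 - c) - A * c := by
  have h : Pu A B' c 2 2 = (B' - A) * u (1 + 1) (1 + 1) + A * c * u 0 2
    - B' * (1 - c) * u 2 0 + (A * (1 - c) - B' * c) * u (0 + 1) (0 + 1) := rfl
  rw [h, u_succ, u_succ, u_zl, u_zr]; ring
lemma Pu_p2 (p : ℕ) : Pu A B' c (p + 3) 2 = B' * (1 - c) := by
  have h : Pu A B' c (p + 3) 2 = (B' - A) * u (p + 2 + 1) (1 + 1) + A * c * u (p + 1) (1 + 1)
    - B' * (1 - c) * u (p + 3) 0 + (A * (1 - c) - B' * c) * u (p + 1 + 1) (0 + 1) := rfl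
  rw [h, u_succ, u_succ, u_succ, u_zr]; ring
lemma Pu_2p (p : ℕ) : Pu A B' c 2 (p + 3) = -(A * c) := by
  have h : Pu A B' c 2 (p + 3) = (B' - A) * u (1 + 1) (p + 2 + 1) + A * c * u 0 (p + 3)
    - B' * (1 - c) * u (1 + 1) (p + 1) + (A * (1 - c) - B' * c) * u (0 + 1) (p + 1 + 1) := rfl
  rw [h, u_succ, u_succ, u_succ, u_zl]; ring
lemma Pu_33 (p q : ℕ) : Pu A B' c (p + 3) (q + 3) = 0 := by
  have h : Pu A B' c (p + 3) (q + 3) = (B' - A) * u (p + 2 + 1) (q + 2 + 1)
    + A * c * u (p + 1) (q + 2 + 1)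
    - B' * (1 - c) * u (p + 2 + 1) (q + 1) + (A * (1 - c) - B' * c) * u (p + 1 + 1) (q + 1 + 1) :=
    rfl
  rw [h, u_succ, u_succ, u_succ, u_succ]; ring

end Pu

lemma pair_nonneg {A B' c α β κa κb : ℝ} (hA : 0 ≤ A) (hAB : A ≤ B') (hc0 : 0 ≤ c)
    (hc : c ≤ 1 / 2) (hκa : 0 ≤ κa) (hκ : κa ≤ κb) (hα : α = κa * c) (hβ : β = κb * (1 - c))
    (q e : ℕ) : 0 ≤ β ^ e * Pu A B' c (q + 2 * e) q + α ^ e * Pu A B' c q (q + 2 * e) := by
  have hα0 : 0 ≤ α := by rw [hα]; positivity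
  have hαβ : α ≤ β := by
    rw [hα, hβ]
    nlinarith
  have hβ0 : 0 ≤ β := hα0.trans hαβ
  have hpow : ∀ e : ℕ, α ^ e ≤ β ^ e := fun e => pow_le_pow_left₀ hα0 hαβ e
  have hB : 0 ≤ B' := hA.trans hAB
  rcases q with _ | q
  · rw [Pu_zr, Pu_zl]; simp
  rcases q with _ | q
  · rcases e with _ | e
    · have h := Pu_11 A B' c
      simp only [zero_add, mul_zero, add_zero, pow_zero, one_mul]
      rw [h]
      linarith
    · have h0 : 0 + 1 + 2 * (e + 1) = 2 * e + 3 := by ring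
      rw [h0, zero_add, Pu_p1, Pu_1p, pow_succ, pow_succ]
      have hκ1 : 0 ≤ B' - A * (1 - c) := by nlinarith
      have h3 : α ^ e * β * (B' - A * (1 - c)) ≤ β ^ e * β * (B' - A * (1 - c)) := by
        have := hpow e
        gcongr
      have h4 : 0 ≤ β * (B' - A * (1 - c)) + α * (B' * c - A) := by
        rw [hα, hβ]
        have h5 : κa * (1 - c) * (B' - A * (1 - c)) ≤ κb * (1 - c) * (B' - A * (1 - c)) := by
          have : 0 ≤ 1 - c := by linarith
          gcongr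
        have h6 : 0 ≤ κa * ((B' - A) * (1 - c + c ^ 2)) := by
          have h7 : 0 ≤ 1 - c + c ^ 2 := by nlinarith
          have h8 : 0 ≤ B' - A := by linarith
          positivity
        nlinarith
      have h5 : 0 ≤ α ^ e * (β * (B' - A * (1 - c)) + α * (B' * c - A)) :=
        mul_nonneg (pow_nonneg hα0 e) h4
      nlinarith
  rcases q with _ | q
  · rcases e with _ | e
    · have h := Pu_22 A B' c
      simp only [zero_add, mul_zero, add_zero, pow_zero, one_mul, Nat.reduceAdd]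
      rw [h]
      nlinarith
    · have h0 : 0 + 1 + 1 + 2 * (e + 1) = (2 * e + 1) + 3 := by ring
      have h0' : 0 + 1 + 1 = 2 := rfl
      rw [h0, h0', Pu_p2, Pu_2p]
      have h3 := hpow (e + 1)
      have h4 : α ^ (e + 1) * (A * c) ≤ β ^ (e + 1) * (B' * (1 - c)) := by
        have h5 : A * c ≤ B' * (1 - c) := by nlinarith
        have h6 : 0 ≤ A * c := by positivity
        exact mul_le_mul h3 h5 h6 (pow_nonneg hβ0 _)
      linarith
  · have h0 : q + 1 + 1 + 1 + 2 * e = (q + 2 * e) + 3 := by ring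
    rw [h0, show q + 1 + 1 + 1 = q + 3 from rfl, Pu_33, Pu_33]
    simp

/-- Diagonal nonnegativity of the convolution. -/
lemma conv_diag {A B' c α β κa κb : ℝ} (hA : 0 ≤ A) (hAB : A ≤ B') (hc0 : 0 ≤ c)
    (hc : c ≤ 1 / 2) (hκa : 0 ≤ κa) (hκ : κa ≤ κb) (hα : α = κa * c) (hβ : β = κb * (1 - c))
    (B k m : ℕ) : 0 ≤ conv α β B k (Pu A B' c) m m := by
  have hα0 : 0 ≤ α := by rw [hα]; positivity
  have hβ0 : 0 ≤ β := by
    rw [hβ]
    have : 0 ≤ 1 - c := by linarith
    have := hκa.trans hκ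
    positivity
  have key : ∀ i l : ℕ, i ≤ l → 0 ≤ G α β k i l * Pu A B' c (m - 2 * i) (m - 2 * l) +
      G α β k l i * Pu A B' c (m - 2 * l) (m - 2 * i) := by
    intro i l hil
    obtain ⟨e, rfl⟩ := Nat.exists_eq_add_of_le hil
    have hs := g_symm k _ i (i + e) rfl
    unfold G
    rw [← hs]
    rcases le_or_gt m (2 * (i + e)) with h | h
    · have h0 : m - 2 * (i + e) = 0 := by omega
      rw [h0, Pu_zr, Pu_zl]; simp
    · obtain ⟨q, rfl⟩ : ∃ q, m = q + 2 * (i + e) := ⟨m - 2 * (i + e), by omega⟩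
      have e1 : q + 2 * (i + e) - 2 * i = q + 2 * e := by omega
      have e2 : q + 2 * (i + e) - 2 * (i + e) = q := by omega
      rw [e1, e2]
      have h3 := pair_nonneg hA hAB hc0 hc hκa hκ hα hβ q e
      have h4 : 0 ≤ (g k i (i + e) : ℝ) * (α ^ i * β ^ i) *
          (β ^ e * Pu A B' c (q + 2 * e) q + α ^ e * Pu A B' c q (q + 2 * e)) := by
        have : 0 ≤ (g k i (i + e) : ℝ) := Nat.cast_nonneg _
        positivity
      refine h4.trans (le_of_eq ?_)
      rw [pow_add, pow_add]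
      ring
  have key2 : ∀ i l : ℕ, 0 ≤ G α β k i l * Pu A B' c (m - 2 * i) (m - 2 * l) +
      G α β k l i * Pu A B' c (m - 2 * l) (m - 2 * i) := by
    intro i l
    rcases le_total i l with h | h
    · exact key i l h
    · have := key l i h
      linarith
  have h1 : conv α β B k (Pu A B' c) m m + conv α β B k (Pu A B' c) m m =
      ∑ i ∈ Finset.range B, ∑ l ∈ Finset.range B,
        (G α β k i l * Pu A B' c (m - 2 * i) (m - 2 * l) +
          G α β k l i * Pu A B' c (m - 2 * l) (m - 2 * i)) := by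
    simp only [Finset.sum_add_distrib]
    unfold conv
    congr 1
    rw [Finset.sum_comm]
  have h2 : 0 ≤ conv α β B k (Pu A B' c) m m + conv α β B k (Pu A B' c) m m := by
    rw [h1]
    exact Finset.sum_nonneg fun i _ => Finset.sum_nonneg fun l _ => key2 i l
  linarith

/-! ### the father's winning probabilities -/

section main
variable (a b c : ℝ)

/-- Winning probability starting with F against M, cut off outside the open quadrant. -/
noncomputable def Mz (f m s : ℕ) : ℝ := if 1 ≤ m ∧ 1 ≤ s then win a b c .FM f m s else 0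

/-- Winning probability starting with F against S, cut off outside the open quadrant. -/
noncomputable def Sz (f m s : ℕ) : ℝ := if 1 ≤ m ∧ 1 ≤ s then win a b c .FS f m s else 0

lemma Mz_supp (f : ℕ) : Supp (Mz a b c f) := ⟨fun s => by simp [Mz], fun m => by simp [Mz]⟩
lemma Sz_supp (f : ℕ) : Supp (Sz a b c f) := ⟨fun s => by simp [Sz], fun m => by simp [Sz]⟩

lemma Mz_succ (f m s : ℕ) : Mz a b c f (m + 1) (s + 1) = win a b c .FM f (m + 1) (s + 1) := by
  simp [Mz]
lemma Sz_succ (f m s : ℕ) : Sz a b c f (m + 1) (s + 1) = win a b c .FS f (m + 1) (s + 1) := by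
  simp [Sz]

lemma Mz_eq_win (f m s : ℕ) : Mz a b c (f + 1) m s = win a b c .FM (f + 1) m s := by
  rcases m with _ | m
  · rw [(Mz_supp a b c _).1, win_m0]
  rcases s with _ | s
  · rw [(Mz_supp a b c _).2, win_s0]
  · rw [Mz_succ]
lemma Sz_eq_win (f m s : ℕ) : Sz a b c (f + 1) m s = win a b c .FS (f + 1) m s := by
  rcases m with _ | m
  · rw [(Sz_supp a b c _).1, win_m0]
  rcases s with _ | s
  · rw [(Sz_supp a b c _).2, win_s0]
  · rw [Sz_succ]

lemma Mz_zero (m s : ℕ) : Mz a b c 0 m s = u m s := by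
  unfold Mz u
  rw [win_zero]
lemma Sz_zero (m s : ℕ) : Sz a b c 0 m s = u m s := by
  unfold Sz u
  rw [win_zero]

lemma Mz_rec (f m s : ℕ) : Mz a b c (f + 1) m s = a * Sz a b c f m s +
    (1 - a) * (c * Mz a b c (f + 1) (m - 2) s + (1 - c) * Sz a b c (f + 1) (m - 1) (s - 1)) := by
  rcases m with _ | m
  · simp only [Nat.zero_sub, (Mz_supp a b c _).1, (Sz_supp a b c _).1]; ring
  rcases s with _ | s
  · simp only [Nat.zero_sub, (Mz_supp a b c _).2, (Sz_supp a b c _).2]; ring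
  rw [Mz_succ, win_FM, Sz_succ, Nat.add_sub_cancel, Nat.add_sub_cancel]
  rcases m with _ | m
  · rw [win_m0, show 0 + 1 - 2 = 0 from rfl, (Mz_supp a b c _).1, (Sz_supp a b c _).1]; ring
  · rw [win_MS, show m + 1 + 1 - 2 = m from rfl, Mz_eq_win, Sz_eq_win]

lemma Sz_rec (f m s : ℕ) : Sz a b c (f + 1) m s = b * Mz a b c f m s +
    (1 - b) * (c * Mz a b c (f + 1) (m - 1) (s - 1) + (1 - c) * Sz a b c (f + 1) m (s - 2)) := by
  rcases m with _ | m
  · simp only [Nat.zero_sub, (Mz_supp a b c _).1, (Sz_supp a b c _).1]; ring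
  rcases s with _ | s
  · simp only [Nat.zero_sub, (Mz_supp a b c _).2, (Sz_supp a b c _).2]; ring
  rw [Sz_succ, win_FS, Mz_succ, Nat.add_sub_cancel, Nat.add_sub_cancel]
  rcases s with _ | s
  · rw [win_s0, show 0 + 1 - 2 = 0 from rfl, (Mz_supp a b c _).2, (Sz_supp a b c _).2]; ring
  · rw [win_MS, show s + 1 + 1 - 2 = s from rfl, Mz_eq_win, Sz_eq_win]

/-- The difference. -/
noncomputable def Dz (f m s : ℕ) : ℝ := Mz a b c f m s - Sz a b c f m s

lemma Dz_supp (f : ℕ) : Supp (Dz a b c f) :=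
  ⟨fun s => by unfold Dz; rw [(Mz_supp a b c _).1, (Sz_supp a b c _).1, sub_zero],
    fun m => by unfold Dz; rw [(Mz_supp a b c _).2, (Sz_supp a b c _).2, sub_zero]⟩

/-- first-order relation for M -/
lemma M1 (f m s : ℕ) : Mz a b c (f + 1) m s = (1 - a) * c * Mz a b c (f + 1) (m - 2) s +
    (1 - b) * (1 - c) * Mz a b c (f + 1) m (s - 2) +
    (a * (Sz a b c f m s - (1 - b) * (1 - c) * Sz a b c f m (s - 2)) +
      (1 - a) * (1 - c) * b * Mz a b c f (m - 1) (s - 1)) := by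
  have h1 := Mz_rec a b c f m s
  have h2 := Mz_rec a b c f m (s - 2)
  have h3 := Sz_rec a b c f (m - 1) (s - 1)
  have e1 : m - 1 - 1 = m - 2 := by omega
  have e2 : s - 1 - 1 = s - 2 := by omega
  have e3 : s - 2 - 1 = s - 3 := by omega
  have e4 : s - 1 - 2 = s - 3 := by omega
  rw [e1, e2, e4] at h3
  rw [e3] at h2
  linear_combination h1 - (1 - b) * (1 - c) * h2 + (1 - a) * (1 - c) * h3

/-- first-order relation for S -/
lemma S1 (f m s : ℕ) : Sz a b c (f + 1) m s = (1 - a) * c * Sz a b c (f + 1) (m - 2) s +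
    (1 - b) * (1 - c) * Sz a b c (f + 1) m (s - 2) +
    (b * (Mz a b c f m s - (1 - a) * c * Mz a b c f (m - 2) s) +
      (1 - b) * c * a * Sz a b c f (m - 1) (s - 1)) := by
  have h1 := Sz_rec a b c f m s
  have h2 := Sz_rec a b c f (m - 2) s
  have h3 := Mz_rec a b c f (m - 1) (s - 1)
  have e1 : m - 1 - 1 = m - 2 := by omega
  have e2 : s - 1 - 1 = s - 2 := by omega
  have e3 : m - 2 - 1 = m - 3 := by omega
  have e4 : m - 1 - 2 = m - 3 := by omega
  rw [e1, e2, e4] at h3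
  rw [e3] at h2
  linear_combination h1 - (1 - a) * c * h2 + (1 - b) * c * h3

/-- The recursion for the difference. -/
lemma Dz_rec (f m s : ℕ) : Dz a b c (f + 2) m s = (1 - a) * c * Dz a b c (f + 2) (m - 2) s +
    (1 - b) * (1 - c) * Dz a b c (f + 2) m (s - 2) +
    ((b * (1 - a) * (1 - c) + a * (1 - b) * c) * Dz a b c (f + 1) (m - 1) (s - 1) +
      a * b * Dz a b c f m s) := by
  have h1 := M1 a b c (f + 1) m s
  have h2 := S1 a b c (f + 1) m s
  have h3 := Sz_rec a b c f m s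
  have h4 := Mz_rec a b c f m s
  unfold Dz
  linear_combination h1 - h2 + a * h3 - b * h4

lemma Dz_one (m s : ℕ) : Dz a b c 1 m s = (1 - a) * c * Dz a b c 1 (m - 2) s +
    (1 - b) * (1 - c) * Dz a b c 1 m (s - 2) + Pu (b * (1 - a)) (a * (1 - b)) c m s := by
  have h1 := M1 a b c 0 m s
  have h2 := S1 a b c 0 m s
  simp only [Mz_zero, Sz_zero] at h1 h2
  unfold Dz Pu
  linear_combination h1 - h2

lemma Dz_zero (m s : ℕ) : Dz a b c 0 m s = 0 := by
  unfold Dz
  rw [Mz_zero, Sz_zero, sub_self]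

end main

lemma conv_add (α β : ℝ) (B k : ℕ) (φ ψ : ℕ → ℕ → ℝ) (x y : ℝ) (m s : ℕ) :
    conv α β B k (fun m s => x * φ m s + y * ψ m s) m s =
      x * conv α β B k φ m s + y * conv α β B k ψ m s := by
  unfold conv
  simp only [Finset.mul_sum, ← Finset.sum_add_distrib]
  refine Finset.sum_congr rfl fun i _ => Finset.sum_congr rfl fun l _ => ?_
  ring

lemma conv_shift (α β : ℝ) (B k : ℕ) (φ : ℕ → ℕ → ℝ) (m s : ℕ) :
    conv α β B k (fun m s => φ (m - 1) (s - 1)) m s = conv α β B k φ (m - 1) (s - 1) := by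
  unfold conv
  refine Finset.sum_congr rfl fun i _ => Finset.sum_congr rfl fun l _ => ?_
  simp only []
  rw [show m - 2 * i - 1 = m - 1 - 2 * i by omega, show s - 2 * l - 1 = s - 1 - 2 * l by omega]

lemma Dz_cone {a b c : ℝ} (ha0 : 0 ≤ a) (ha1 : a ≤ 1) (hb0 : 0 ≤ b) (hba : b ≤ a)
    (hc0 : 0 ≤ c) (hc : c ≤ 1 / 2) (B f : ℕ) :
    (∀ k m, m ≤ B → 0 ≤ conv ((1 - a) * c) ((1 - b) * (1 - c)) B k (Dz a b c f) m m) ∧
    (∀ k m, m ≤ B → 0 ≤ conv ((1 - a) * c) ((1 - b) * (1 - c)) B k (Dz a b c (f + 1)) m m) := by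
  induction f with
  | zero =>
    constructor
    · intro k m _
      unfold conv
      refine Finset.sum_nonneg fun i _ => Finset.sum_nonneg fun l _ => ?_
      rw [Dz_zero, mul_zero]
    · intro k m hm
      rw [← conv_step _ _ B k _ _ (Dz_supp a b c 1) (Dz_one a b c) m m hm hm]
      have h1a : 0 ≤ 1 - a := by linarith
      refine conv_diag (κa := 1 - a) (κb := 1 - b) ?_ ?_ hc0 hc h1a (by linarith) rfl rfl B _ m
      · positivity
      · nlinarith
  | succ f ih =>
    refine ⟨ih.2, fun k m hm => ?_⟩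
    have h1a : 0 ≤ 1 - a := by linarith
    have h1b : 0 ≤ 1 - b := by linarith
    have h1c : 0 ≤ 1 - c := by linarith
    rw [← conv_step _ _ B k _ _ (Dz_supp a b c (f + 1 + 1)) (Dz_rec a b c f) m m hm hm]
    rw [conv_add _ _ B (k + 1) (fun m s => Dz a b c (f + 1) (m - 1) (s - 1)) (Dz a b c f),
      conv_shift]
    have h2 := ih.1 (k + 1) m hm
    have h3 := ih.2 (k + 1) (m - 1) (by omega)
    have h4 : 0 ≤ b * (1 - a) * (1 - c) + a * (1 - b) * c := by positivity
    have h5 : 0 ≤ a * b := by positivity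
    have := mul_nonneg h4 h3
    have := mul_nonneg h5 h2
    linarith

/-- Playing the mother first is optimal for the father, for every `N ≥ 1` and all
`0 ≤ b ≤ a ≤ 1`, `0 ≤ c ≤ 1 / 2` (in particular under the strength convention
`0 < b ≤ a < 1 / 2`, `0 < c < 1 / 2`). -/
theorem result (N : ℕ) (hN : 1 ≤ N) (a b c : ℝ) (ha : a ≤ 1) (hb : 0 ≤ b) (hba : b ≤ a)
    (hc : 0 ≤ c) (hc' : c ≤ 1 / 2) :
    win a b c .FS N N N ≤ win a b c .FM N N N ∧ win a b c .MS N N N ≤ win a b c .FM N N N := by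
  have ha0 : 0 ≤ a := hb.trans hba
  obtain ⟨n, rfl⟩ : ∃ n, N = n + 1 := ⟨N - 1, by omega⟩
  have h1 : win a b c .FS (n + 1) (n + 1) (n + 1) ≤ win a b c .FM (n + 1) (n + 1) (n + 1) := by
    have h2 := (Dz_cone ha0 ha hb hba hc hc' (n + 1) (n + 1)).1 0 (n + 1) le_rfl
    rw [conv_zero _ _ _ _ _ _ (by omega)] at h2
    unfold Dz at h2
    rw [Mz_succ, Sz_succ] at h2
    linarith
  refine ⟨h1, ?_⟩
  have hm := fun X f m s => win_mono (a := a) (b := b) (c := c) ha0 ha hb
    (by linarith) hc (by linarith) _ f m s rfl X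
  rw [win_MS]
  have h3 := (hm .FM (n + 1) n (n + 1)).1
  have h4 := (hm .FS (n + 1) (n + 1) n).2
  have h5 := mul_le_mul_of_nonneg_left h3 hc
  have h6 := mul_le_mul_of_nonneg_left (h4.trans h1) (show 0 ≤ 1 - c by linarith)
  linarith

end Pool.Agent.Results.MP_582e6d_pr.FatherChoice
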